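import Pool.Agent.helper7.ZB.SpecT

/-!
# Row zb:ZTI: the claim for the type `N`
-/

set_option autoImplicit false

namespace Pool.Agent.ZB

open Pool.Agent.helper58.DC Pool.Agent.DI Pool.Agent.GR Pool.Agent.OB Pool.Agent.DR Pool.Agent.FI Pool.Agent.FI3 Pool.Agent.FI4 Pool.Agent.FI4I Pool.Agent.LE Pool.Agent.L5 Pool.Agent.NAB

theorem ZTI_van {G : Type} [Group G] {N H : Subgroup G} (hH : H ≤ N) {ψ : G → ℂ} (hψ : ψ ∈ IrrOn H) :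
    ∀ x, x ∉ N → ψ x = 0 := fun x hx => hψ.1 x (fun h => hx (hH h))

theorem ZTI_le {G : Type} [Group G] [Finite G] {p : ℕ} {M : Ideal (integralClosure ℤ ℂ)} {L : Subgroup G} {ψ : G → ℂ}
    {D : Subgroup G} {x : G} (h : DefL p M L ψ D x) : D ≤ L := h.le.trans inf_le_left

theorem ZTI (hZE1 : ZE1_stmt) (hZTK : ZTK_stmt) (hTR1 : TR1_stmt) (hTR2 : TR2_stmt) (hTR3 : TR3_stmt)
    (hTR4 : TR4_stmt) (hTRE : Pool.Agent.L5.TRE_stmt) (hTPR : Pool.Agent.FI.TPR_stmt) : ZTI_stmt := by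
  intro p κ M hM G _ _ N hMN φ hφ Q y hU hKZ
  obtain ⟨t1, t2, t3⟩ := hZTK p κ M hM.pr G N
  have hφN : ∀ y, y ∉ N → φ y = 0 := ZTI_van le_rfl hφ
  have hQN : Q ≤ N := ZTI_le hU
  have hE : EQ p κ.s Q ≤ N := (hZE1 p hM.pr κ G Q hKZ).2.1.2.1.trans hQN
  have htop : N.subgroupOf N = ⊤ := Subgroup.subgroupOf_self N
  have hK : N ⊓ nz (EQ p κ.s Q) ≤ N := inf_le_left
  obtain ⟨a1, a2, a3⟩ := hTR1 G N (N ⊓ nz (EQ p κ.s Q)) hK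
  have hχ : rN N φ ∈ Irr N := by
    have h := ((hTR1 G N N le_rfl).1 φ hφN).1 hφ
    rw [htop, (hTPR p M hM N).1] at h
    exact h
  have hU' : DefL p M (⊤ : Subgroup N) (rN N φ) (Q.subgroupOf N) ⟨y, hU.mem⟩ := by
    have h := (t1 N le_rfl φ hφN Q hQN ⟨y, hU.mem⟩).2 hU
    rwa [htop] at h
  have hnz : nz (EQ p κ.s (Q.subgroupOf N)) = (N ⊓ nz (EQ p κ.s Q)).subgroupOf N := by
    rw [t3 Q hQN, ((hTR3 p G N).1 (EQ p κ.s Q) hE).2, Subgroup.inf_subgroupOf_left]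
  have hL := hTRE p M hM G N N le_rfl φ hφN
  rw [htop] at hL
  rw [← hL, hMN _ hχ _ _ hU' ((t2 Q hQN).2 hKZ), hnz, t3 Q hQN]
  unfold lQ
  symm
  refine finsum_mem_eq_of_bijOn (rN N) ⟨?_, ?_, ?_⟩ ?_
  · rintro η ⟨hη, hs, Q1, y1, h1, h2, h3⟩
    have hQ1 : Q1 ≤ N := (ZTI_le h1).trans hK
    refine ⟨(a1 η (ZTI_van hK hη)).1 hη, ?_, Q1.subgroupOf N, ⟨y1, hK h1.mem⟩, ?_, (t2 Q1 hQ1).2 h2, ?_⟩
    · have h := ((hTR2 G M N).2.1 N le_rfl η φ (ZTI_van hK hη) hφN).1 hs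
      rwa [htop] at h
    · exact (t1 _ hK η (ZTI_van hK hη) Q1 hQ1 ⟨y1, hK h1.mem⟩).2 h1
    · rw [t3 Q1 hQ1, h3]
  · rintro η ⟨hη, -⟩ η' ⟨hη', -⟩ he
    exact a3 η η' (ZTI_van hK hη) (ZTI_van hK hη') he
  · rintro η' ⟨hη', hs, Q', y1, h1, h2, h3⟩
    obtain ⟨η, hη, rfl⟩ := a2 η' hη'
    have hQ' : (Q'.map N.subtype).subgroupOf N = Q' :=
      Subgroup.comap_map_eq_self_of_injective N.subtype_injective Q'
    have hQ1 : Q'.map N.subtype ≤ N := by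
      rintro _ ⟨q, -, rfl⟩
      exact q.2
    have h1' : DefL p M (N ⊓ nz (EQ p κ.s Q)) η (Q'.map N.subtype) (y1 : G) := by
      refine (t1 _ hK η (ZTI_van hK hη) (Q'.map N.subtype) hQ1 y1).1 ?_
      rwa [hQ']
    have h2' : KZ p κ (Q'.map N.subtype) := by
      refine (t2 _ hQ1).1 ?_
      rwa [hQ']
    refine ⟨η, ⟨hη, ?_, Q'.map N.subtype, (y1 : G), h1', h2', ?_⟩, rfl⟩
    · refine ((hTR2 G M N).2.1 N le_rfl η φ (ZTI_van hK hη) hφN).2 ?_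
      rwa [htop]
    · have h4 : (EQ p κ.s (Q'.map N.subtype)).subgroupOf N = (EQ p κ.s Q).subgroupOf N := by
        rw [← t3 _ hQ1, hQ', h3]
      have h5 : EQ p κ.s (Q'.map N.subtype) ≤ N := (hZE1 p hM.pr κ G _ h2').2.1.2.1.trans hQ1
      have h6 := Subgroup.subgroupOf_inj.1 h4
      rwa [inf_eq_left.2 h5, inf_eq_left.2 hE] at h6
  · rintro η ⟨hη, -⟩
    exact ((hTR4 p G N _ hK η η).1).symm

end Pool.Agent.ZB
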